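import Mathlib
import Pool.Agent.Y993.GM.Main

set_option autoImplicit false

/-!
# The projection of the critical planar Ising plus phase onto a line is a regular g-measure

At the critical inverse temperature `βc = log (1 + √2) / 2` and zero field the plus phase of the
nearest-neighbour Ising model on `ℤ²` exists, and its marginal on the line `ℤ × {0}` is a regular
g-measure: there is a strictly positive continuous g-function.
-/

open MeasureTheory ProbabilityTheory Filter Topology Finset

noncomputable section

namespace Pool.Agent.Results.MP_6ac95e_pr.CriticalLineRegularG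

/-! ## The Ising model on the square lattice -/

/-- The spin `+1` (`true`) or `-1` (`false`). -/
def spin (b : Bool) : ℝ := if b then 1 else -1

/-- The box `[-n, n]²`. -/
def box (n : ℕ) : Finset (ℤ × ℤ) := Finset.Icc (-(n : ℤ)) n ×ˢ Finset.Icc (-(n : ℤ)) n

/-- The edge `(p, true)` joins `p` and `p + (1, 0)`, the edge `(p, false)` joins `p` and
`p + (0, 1)`; `other e` is the second end point. -/
def other (e : (ℤ × ℤ) × Bool) : ℤ × ℤ :=
  if e.2 then (e.1.1 + 1, e.1.2) else (e.1.1, e.1.2 + 1)

/-- All nearest-neighbour edges of `ℤ²` with at least one end point in `box n`. -/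
def edges (n : ℕ) : Finset ((ℤ × ℤ) × Bool) :=
  (box (n + 1) ×ˢ (Finset.univ : Finset Bool)).filter fun e => e.1 ∈ box n ∨ other e ∈ box n

/-- The configuration which is `σ` in the box and `+` outside. -/
def withPlus (n : ℕ) (σ : box n → Bool) : ℤ × ℤ → Bool :=
  fun p => if h : p ∈ box n then σ ⟨p, h⟩ else true

/-- Minus the energy `∑ σ_x σ_y` over the edges touching the box, plus boundary condition. -/
def interaction (n : ℕ) (σ : box n → Bool) : ℝ :=
  ∑ e ∈ edges n, spin (withPlus n σ e.1) * spin (withPlus n σ (other e))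

/-- The finite-volume Gibbs measure in `box n` with plus boundary condition, inverse temperature
`β` and zero field. -/
def plusMeasure (β : ℝ) (n : ℕ) : Measure (ℤ × ℤ → Bool) :=
  ∑ σ : box n → Bool,
    ENNReal.ofReal (Real.exp (β * interaction n σ) /
      ∑ σ' : box n → Bool, Real.exp (β * interaction n σ')) • Measure.dirac (withPlus n σ)

/-- `μ` is the plus phase at inverse temperature `β`: the weak limit of the finite-volume measures
with plus boundary condition. -/
def IsPlusPhase (β : ℝ) (μ : Measure (ℤ × ℤ → Bool)) : Prop :=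
  IsProbabilityMeasure μ ∧
    ∀ f : C(ℤ × ℤ → Bool, ℝ),
      Tendsto (fun n => ∫ σ, f σ ∂(plusMeasure β n)) atTop (𝓝 (∫ σ, f σ ∂μ))

/-- The critical inverse temperature. -/
def βc : ℝ := Real.log (1 + √2) / 2

/-! ## g-measures on `{-1, +1}^ℤ` -/

/-- The past `(ω_{-1}, ω_{-2}, …)` of a configuration. -/
def pastOf (ω : ℤ → Bool) : ℕ → Bool := fun k => ω (-1 - (k : ℤ))

/-- `ν` is a regular g-measure: it is a translation-invariant probability measure, and there is a
strictly positive continuous g-function `g (a | x_{-1}, x_{-2}, …)` (a probability in `a`) which is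
the conditional probability of `ω_0 = a` given the past. -/
def IsRegularGMeasure (ν : Measure (ℤ → Bool)) : Prop :=
  IsProbabilityMeasure ν ∧ ν.map (fun ω i => ω (i + 1)) = ν ∧
    ∃ g : Bool → (ℕ → Bool) → ℝ,
      (∀ a, Continuous (g a)) ∧ (∀ a x, 0 < g a x) ∧ (∀ x, g true x + g false x = 1) ∧
      ∀ a, ν⟦{ω | ω 0 = a} | MeasurableSpace.comap pastOf inferInstance⟧ =ᵐ[ν]
        fun ω => g a (pastOf ω)

/-- The restriction of a configuration to the line `ℤ × {0}`. -/
def toLine (σ : ℤ × ℤ → Bool) : ℤ → Bool := fun i => σ (i, 0)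

/-! ## The theorem -/

theorem plusMeasure_eq (β : ℝ) (n : ℕ) :
    plusMeasure β n = Pool.Agent.W854.IG.plusMeasure β n := by
  unfold Pool.Agent.W854.IG.plusMeasure
  rw [Pool.Agent.W854.IG.sum_cf, Pool.Agent.W854.IG.sum_cf]
  rfl

theorem isPlusPhase_iff (β : ℝ) (μ : Measure (ℤ × ℤ → Bool)) :
    IsPlusPhase β μ ↔ Pool.Agent.W854.IG.IsPlusPhase β μ := by
  unfold IsPlusPhase Pool.Agent.W854.IG.IsPlusPhase
  simp only [plusMeasure_eq]

/-- **Theorem.** At the critical point the plus phase of the planar Ising model exists and is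
unique, and its projection onto the line `ℤ × {0}` is a regular g-measure. -/
theorem result :
    ∃ μ : Measure (ℤ × ℤ → Bool), IsPlusPhase βc μ ∧ (∀ μ', IsPlusPhase βc μ' → μ' = μ) ∧
      IsRegularGMeasure (μ.map toLine) := by
  have hβ : 0 ≤ Pool.Agent.W854.IG.βc := Pool.Agent.W854.IG.βc_nonneg
  obtain ⟨μ, hμ⟩ := Pool.Agent.W854.IG.plusPhase_exists hβ
  refine ⟨μ, (isPlusPhase_iff _ _).2 hμ, ?_, Pool.Agent.Y993.GM.main hμ⟩
  intro μ' hμ'
  exact Pool.Agent.W854.IG.plusPhase_unique hμ ((isPlusPhase_iff _ _).1 hμ')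

end Pool.Agent.Results.MP_6ac95e_pr.CriticalLineRegularG
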